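import Pool.Agent.Q282.UK.Filt

/-!
# MP_08891c_ag: the existence of the Bloch-Beilinson filtration and systems of bilinear equations
-/

set_option autoImplicit false

open CategoryTheory Limits AlgebraicGeometry Pool.Agent.Y116.UV Pool.Agent.Q282.UM
  Pool.Agent.Q282.UK

namespace Pool.Agent.Results.MP_08891c_ag.BilinearSystems

universe v u w

/-- The functors of the conjecture on the category `C` of Chow motives over `ℂ` with rational
coefficients (contravariant, `h(X)` is the motive of `X`).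

* `tw j` is the twist `M ↦ M(j)` by the Tate object;
* `ch M` is the group `Hom(1, M)`, so that `ch (h(X)(j)) = CH^j(X)_ℚ`;
* `H i M` is the cohomology, so that `H i (h(X)(j)) = H^{2j+i}(X, ℚ)(j)`;
* `cl` is the cycle class map;
* `J M` is the intermediate Jacobian of `H (-1) M`, tensored with `ℚ`, so that
  `J (h(X)(j)) = J^{2j-1}(X) ⊗ ℚ`, and `aj` is the Abel-Jacobi map, on the kernel of `cl`. -/
structure Cycles (C : Type u) [Category.{v} C] where
  tw : ℕ → C ⥤ C
  ch : C ⥤ ModuleCat.{w} ℚ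
  H : ℤ → (C ⥤ ModuleCat.{w} ℚ)
  cl : ch ⟶ H 0
  J : C ⥤ ModuleCat.{w} ℚ
  aj : (kerF cl).functor ⟶ J

/-- The functors `tw j` and `ch` are additive, and `J(f) = 0` if `f = 0` on the cohomology `H (-1)`. -/
structure IsCycles {C : Type u} [Category.{v} C] [Preadditive C] (Z : Cycles.{v, u, w} C) :
    Prop where
  tw : ∀ j, (Z.tw j).Additive
  ch : Z.ch.Additive
  jac : ∀ {M N : C} (f : M ⟶ N), (Z.H (-1)).map f = 0 → Z.J.map f = 0

/-- The group `CH^j(X)_ℚ`. -/
abbrev CH {C : Type u} [Category.{v} C] [Preadditive C] (D : Complexes ℂ C)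
    (Z : Cycles.{v, u, w} C) (X : Sch ℂ) (j : ℕ) : ModuleCat.{w} ℚ :=
  Z.ch.obj ((Z.tw j).obj (D.M X))

/-- **Bloch-Beilinson filtrations.** A decreasing filtration `F X j ν = F^ν CH^j(X)_ℚ` for all smooth
projective `X` over `ℂ` and all `j ≥ 0` with the conditions 1-4; the correspondences
`Γ ∈ CH^{dim X + j - i}(X × Y)_ℚ` are the morphisms `f : h(X)(i) → h(Y)(j)`. -/
structure IsFiltration {C : Type u} [Category.{v} C] [Preadditive C] (D : Complexes ℂ C)
    (Z : Cycles.{v, u, w} C) (F : (X : Sch ℂ) → (j : ℕ) → ℕ → Submodule ℚ (CH D Z X j)) :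
    Prop where
  decreasing : ∀ X, IsSmoothProjective X → ∀ j ν, F X j (ν + 1) ≤ F X j ν
  zero : ∀ X, IsSmoothProjective X → ∀ j, F X j 0 = ⊤
  one : ∀ X, IsSmoothProjective X → ∀ j, F X j 1 = (kerF Z.cl).sub _
  two : ∀ X, IsSmoothProjective X → ∀ j, F X j 2 = (kerOn (kerF Z.cl) Z.aj).sub _
  last : ∀ X, IsSmoothProjective X → ∀ j, F X j (j + 1) = ⊥
  functorial : ∀ X Y, IsSmoothProjective X → IsSmoothProjective Y → ∀ (i j : ℕ)
    (f : (Z.tw i).obj (D.M X) ⟶ (Z.tw j).obj (D.M Y)) (ν : ℕ) (x : CH D Z X i), x ∈ F X i ν →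
      (Z.ch.map f).hom x ∈ F Y j ν
  graded : ∀ X Y, IsSmoothProjective X → IsSmoothProjective Y → ∀ (i j : ℕ)
    (f : (Z.tw i).obj (D.M X) ⟶ (Z.tw j).obj (D.M Y)) (ν : ℕ), (Z.H (-(ν : ℤ))).map f = 0 →
      ∀ x : CH D Z X i, x ∈ F X i ν → (Z.ch.map f).hom x ∈ F Y j (ν + 1)

/-- The twisted motives `h(X)(i)`, `i ≥ 0`. -/
def IsMotive {C : Type u} [Category.{v} C] [Preadditive C] (D : Complexes ℂ C)
    (Z : Cycles.{v, u, w} C) (N : C) : Prop :=
  ∃ (X : Sch ℂ) (i : ℕ), IsSmoothProjective X ∧ N = (Z.tw i).obj (D.M X)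

/-- The recursive filtration of `Hom(1, M)`, for all motives `M`: it begins with the whole group, the
kernel of the cycle class map and the kernel of the Abel-Jacobi map; for `ν ≥ 2`, `S^{ν+1}(M)` is
spanned by the elements `f_* x`, `x ∈ S^ν(h(X)(i))`, where `f : h(X)(i) → M` acts as zero on the
cohomology `H (-ν)`. -/
def recursive {C : Type u} [Category.{v} C] [Preadditive C] (D : Complexes ℂ C)
    (Z : Cycles.{v, u, w} C) : ℕ → SubF Z.ch
  | 0 => topF Z.ch
  | 1 => kerF Z.cl
  | 2 => kerOn (kerF Z.cl) Z.aj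
  | ν + 3 => nextF (IsMotive D Z) (Z.H (-((ν + 2 : ℕ) : ℤ))) (recursive D Z (ν + 2))

/-- The functor `M ↦ S^{j+1}(M(j))` (for `M = h(X)` it is `S^{j+1} CH^j(X)_ℚ`). -/
def lastStep {C : Type u} [Category.{v} C] [Preadditive C] (D : Complexes ℂ C)
    (Z : Cycles.{v, u, w} C) (j : ℕ) : C ⥤ ModuleCat.{w} ℚ :=
  Z.tw j ⋙ (recursive D Z (j + 1)).functor

lemma last_additive {C : Type u} [Category.{v} C] [Preadditive C] (D : Complexes ℂ C)
    {Z : Cycles.{v, u, w} C} (hZ : IsCycles Z) (j : ℕ) : (lastStep D Z j).Additive := by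
  have := hZ.tw j
  have := (recursive D Z (j + 1)).additive hZ.ch
  unfold lastStep
  infer_instance

section

variable {C : Type u} [Category.{v} C] [Preadditive C] {D : Complexes ℂ C}
  {Z : Cycles.{v, u, w} C}

lemma rec_decreasing (ν : ℕ) (M : C) : (recursive D Z (ν + 1)).sub M ≤ (recursive D Z ν).sub M := by
  match ν with
  | 0 => exact fun _ _ => trivial
  | 1 => exact kerOn_le _ _ M
  | ν + 2 => exact nextF_le _ _ _ M

lemma rec_le {F : (X : Sch ℂ) → (j : ℕ) → ℕ → Submodule ℚ (CH D Z X j)}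
    (hF : IsFiltration D Z F) (ν : ℕ) : ∀ X, IsSmoothProjective X → ∀ j,
      (recursive D Z ν).sub ((Z.tw j).obj (D.M X)) ≤ F X j ν := by
  induction ν with
  | zero =>
    intro X hX j
    rw [hF.zero X hX j]
    exact le_top
  | succ ν ih =>
    match ν with
    | 0 =>
      intro X hX j
      exact (hF.one X hX j).ge
    | 1 =>
      intro X hX j
      exact (hF.two X hX j).ge
    | ν + 2 =>
      intro X hX j
      refine Submodule.span_le.mpr ?_
      rintro _ ⟨N, f, ⟨Y, i, hY, rfl⟩, hf, x, hx, rfl⟩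
      exact hF.graded Y X hY hX i j f (ν + 2) hf x (ih Y hY i hx)

lemma rec_graded (hZ : IsCycles Z) {M N : C} (hM : IsMotive D Z M) (f : M ⟶ N) (ν : ℕ)
    (hf : (Z.H (-(ν : ℤ))).map f = 0) (x : Z.ch.obj M) (hx : x ∈ (recursive D Z ν).sub M) :
    (Z.ch.map f).hom x ∈ (recursive D Z (ν + 1)).sub N := by
  match ν with
  | 0 =>
    change (Z.ch.map f).hom x ∈ LinearMap.ker (Z.cl.app N).hom
    rw [LinearMap.mem_ker]
    have h1 := congrArg (fun φ => φ.hom x) (Z.cl.naturality f)
    change (Z.cl.app N).hom ((Z.ch.map f).hom x) = ((Z.H 0).map f).hom ((Z.cl.app M).hom x) at h1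
    have h2 : (Z.H 0).map f = 0 := hf
    rw [h1, h2]
    rfl
  | 1 =>
    refine ⟨⟨(Z.ch.map f).hom x, (kerF Z.cl).map f x hx⟩, ?_, rfl⟩
    have h1 := congrArg (fun φ => φ.hom (⟨x, hx⟩ : (kerF Z.cl).sub M)) (Z.aj.naturality f)
    have h2 : Z.J.map f = 0 := hZ.jac f (by simpa using hf)
    rw [h2] at h1
    exact h1
  | ν + 2 => exact Submodule.subset_span ⟨M, f, hM, hf, x, hx, rfl⟩

/-- The filtration exists if and only if the recursive filtration stops in time. -/
theorem exists_iff (hZ : IsCycles Z) :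
    (∃ F : (X : Sch ℂ) → (j : ℕ) → ℕ → Submodule ℚ (CH D Z X j), IsFiltration D Z F) ↔
      ∀ (j : ℕ) (X : Sch ℂ), IsSmoothProjective X → IsZero ((lastStep D Z j).obj (D.M X)) := by
  constructor
  · rintro ⟨F, hF⟩ j X hX
    refine ((recursive D Z (j + 1)).zero_iff _).mpr (le_bot_iff.mp ?_)
    exact (rec_le hF (j + 1) X hX j).trans (hF.last X hX j).le
  · intro h
    refine ⟨fun X j ν => (recursive D Z ν).sub _, ?_, ?_, ?_, ?_, ?_, ?_, ?_⟩
    · exact fun X _ j ν => rec_decreasing ν _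
    · exact fun _ _ _ => rfl
    · exact fun _ _ _ => rfl
    · exact fun _ _ _ => rfl
    · exact fun X hX j => ((recursive D Z (j + 1)).zero_iff _).mp (h j X hX)
    · exact fun X Y hX hY i j f ν x hx => (recursive D Z ν).map f x hx
    · exact fun X Y hX hY i j f ν hf x hx => rec_graded hZ ⟨X, i, hX, rfl⟩ f ν hf x hx

end

/-- **The Bloch-Beilinson filtration and systems of bilinear equations.** Let `C` be the category of
Chow motives over `ℂ` with rational coefficients, and let `W(X)` be the weight complex of the scheme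
`X` of finite type over `ℂ`. Let `S^ν(M) ⊂ Hom(1, M)` be the recursive filtration. Then a
Bloch-Beilinson filtration (conditions 1-4) exists on the Chow groups of all smooth projective `X`
over `ℂ` if and only if for all `j ≥ 0` and all `Y ⊂ 𝔸^{a+b}` given by systems of bilinear equations
`∑ T_{ijl} x_i y_j = 0`, `l = 1, …, c`, over `ℂ`, the complex `S^{j+1}(W(Y)(j))` is acyclic. -/
theorem result {C : Type u} [Category.{v} C] [Preadditive C] [HasZeroObject C]
    [HasBinaryBiproducts C] [HasFiniteBiproducts C] (D : Complexes ℂ C) (hD : IsContravariant D)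
    (Z : Cycles.{v, u, w} C) (hZ : IsCycles Z) :
    (∃ F : (X : Sch ℂ) → (j : ℕ) → ℕ → Submodule ℚ (CH D Z X j), IsFiltration D Z F) ↔
      ∀ j : ℕ, ForSystems D (ZeroK (lastStep D Z j) (last_additive D hZ j)) := by
  rw [exists_iff hZ]
  exact forall_congr' fun j => systems_con hD (ext_zero (lastStep D Z j) (last_additive D hZ j))

end Pool.Agent.Results.MP_08891c_ag.BilinearSystems
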