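import Pool.Agent.Q72.BBF.Main

/-!
# Bloch-Beilinson filtrations: the middle dimension, in infinitely many codimensions

`𝒱` is the class of smooth projective complex varieties (or any class of smooth proper varieties over
a field `k` closed under products with the properties below), `C` the Chow groups with rational
coefficients (in the form of their formal properties, `IsChowProj`), `H` a Weil cohomology theory
(`IsWeilProj`; for the problem: Betti cohomology), `N X j` the kernels of the Abel-Jacobi maps
(`IsAbelJacobiKernel`), and `B` the Grothendieck rings of vector bundles with their known properties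
(`IsKTheory`). Let `S^n CH^j(X)` be the smallest system of filtrations which satisfies the conditions
1, 3 and 4 (`step`): `S^0 = CH^j(X)`, `S^1` the homologically trivial classes,
`S^2 = N X j`, and `S^(n+1) CH^i(X)` is spanned by the classes `Γ_* z`, `z ∈ S^n CH^j(Z)`, where the
correspondence `Γ` from `Z` to `X` acts as zero on `H^(2j-n)(Z)`. Let `Cov` be a class of varieties
such that every variety `V` is the target of a morphism of non-zero degree from a variety of the
class of the same dimension (`HasCoverings`), for instance the class of the varieties with ample
canonical class.

One more known theorem is a hypothesis, `NonzeroProducts` (C. Schoen): for every class `z ≠ 0` on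
`X` there are a curve `T` and a zero-cycle `t` of degree zero on `T` with `z × t ≠ 0`.

Theorem. The following are equivalent:
* a Bloch-Beilinson filtration (conditions 1-4) exists on the Chow groups of all varieties;
* for infinitely many `m`: `S^(m+1) CH^m(V) = 0` for all `V` of dimension `2 m` in the class `Cov`;
* for infinitely many `m`: for all `V` of dimension `2 m` in `Cov`, the vector bundles on `V` of rank
  `≥ m` with Chern classes `c_i = 0` for `0 < i < m` and `c_i ∈ S^(m+1) CH^i(V)` for `i ≥ m` have
  `c_m = 0`;
* for infinitely many `m`: for all `V` of dimension `2 m` in `Cov` and all projective bundles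
  `f : P → V` of vector bundles of rank `r ≥ m`, with `ξ` the class of `O(1)`: if
  `f_* (ξ^(r-1+i)) = 0` for `0 < i < m` and `ξ^r ∈ S^(m+1) CH^r(P)`, then `f_* (ξ^(r-1+m)) = 0`.

The proof: if `z ∈ S^(j+1) CH^j(X)` is not zero then for suitable curves `T_i` and zero-cycles `t_i`
of degree zero on them `z × t_1 × ⋯ × t_s ∈ S^(j+s+1) CH^(j+s)(X × T_1 × ⋯ × T_s)` is not zero; its
pull-back to the product with a projective space and to a covering in `Cov` is a class in the middle
codimension. So the vanishing for one `m` implies the vanishing of `S^(j+1) CH^j(X)` for all `j ≤ m`
and `dim X ≤ j + m` (`vanish_of_middle`).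
-/

open CategoryTheory AlgebraicGeometry

set_option autoImplicit false

universe u v w

namespace Pool.Agent.Results.MP_08891c_ag.InfinitelyManyCodimensions

open Pool.Agent.H914 Pool.Agent.W492.BB Pool.Agent.TH133 Pool.Agent.Y148.BB
  Pool.Agent.Q72.DP Pool.Agent.Q72.BBF

/-- A Bloch-Beilinson filtration exists if and only if, for infinitely many `m`, the step
`S^(m+1) CH^m(V)` of the smallest filtration vanishes for the varieties `V` of dimension `2 m` with
ample canonical class (or in any class `Cov` which dominates all varieties), if and only if the same
holds for the leading Chern classes of vector bundles on them. -/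
theorem result {k : Type u} [Field k] {𝒱 : VarClass k} (C : TheoryData.{u, v, 0} 𝒱 ℚ)
    [IsChowProj C] {K : Type w} [Field K] (H : WeilTheoryData.{u, v, w} C K) [IsWeilProj H]
    (N : Fam C) (hN : IsAbelJacobiKernel H N) (hP : NonzeroProducts H) (B : BundleData C) (hB : B.IsKTheory)
    (Cov : 𝒱.Obj → Prop) (hCov : HasCoverings C Cov) :
    [∃ F, IsBB H N F,
      Infinitely Cov fun m V => VanishesAt (step H N (m + 1)) V m,
      Infinitely Cov fun m V => CodimChern (step H N (m + 1)) B V m,
      Infinitely Cov fun m V => CodimTaut (step H N (m + 1)) B V m].TFAE :=
  bb_tfae hN hP hB hCov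

end Pool.Agent.Results.MP_08891c_ag.InfinitelyManyCodimensions
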