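import Pool.Agent.Q69.Murre.BBN

/-!
# The Bloch-Beilinson conjecture in terms of three middle-dimensional statements

`𝒱` is a class of smooth projective irreducible varieties over `k = ℂ` closed under products (for
example all of them), `C` the Chow groups with rational coefficients, in the form of their formal
properties, among them the decomposition theorem of Bloch and Srinivas (`IsChowComplex`), `H` a Weil
cohomology theory (`IsWeilProj`) and `N X j` the kernels of the Abel-Jacobi maps on the homologically
trivial classes in `CH^j(X)` (`AJKernel`).

The theorem: the Kunneth standard conjecture holds and a Bloch-Beilinson filtration (conditions 1-4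
of the problem, with `F^2` equal to the kernel of the Abel-Jacobi map) exists if and only if every
variety `X`, `d = dim X`, has one Chow-Kunneth decomposition `π` such that

* `π_b ∘ γ ∘ π_a = 0` for all homologically trivial `γ ∈ CH^d(X × X)` and `b ≥ a` (this is the equality
  `F^1 = CH_hom` in the codimension `d` of `X × X`, for the decomposition of `X × X` given by `π`);
* `F^(d+1) CH^d(X) = 0` (zero-cycles);
* if `d = 2i - 1` is odd, the projector `π_d` of the middle cohomology acts as zero on the kernel of the
  Abel-Jacobi map in codimension `i`, that is, the Abel-Jacobi map is injective on the homologically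
  trivial part of `(π_d)_* CH^i(X)`.
-/

open CategoryTheory AlgebraicGeometry

set_option autoImplicit false

universe u v w

namespace Pool.Agent.Results.MP_08891c_ag.MiddleDimensions

open Pool.Agent.H914 Pool.Agent.W492.BB Pool.Agent.TH133 Pool.Agent.Q69.Murre

/-- The Kunneth standard conjecture holds and a Bloch-Beilinson filtration with `F^2 = ker AJ` exists
if and only if every variety has a Chow-Kunneth decomposition whose weights are strictly lowered by
homologically trivial self-correspondences, with `F^(dim X + 1) = 0` for zero-cycles, and such that
the Abel-Jacobi map is injective on the homologically trivial cycles of the middle cohomology. -/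
theorem result {k : Type u} [Field k] {𝒱 : VarClass k} (C : TheoryData.{u, v, 0} 𝒱 ℚ)
    [IsChowComplex C] {K : Type w} [Field K] (H : WeilTheoryData.{u, v, w} C K) [IsWeilProj H]
    (N : ∀ X : 𝒱.Obj, ℕ → Submodule ℚ (C.A X)) (hN : AJKernel H N) :
    (KunnethConjecture H ∧ ∃ F, BlochBeilinson H N F) ↔
      ∀ X : 𝒱.Obj, ∃ π : ℕ → C.A (X.prod X), IsCK H X π ∧ LowersWeights H π ∧
        ckFil C π X.dim (X.dim + 1) = ⊥ ∧
        ∀ i : ℕ, 2 * i = X.dim + 1 → ∀ x ∈ N X i, C.act (π X.dim) x = 0 :=
  blochBeilinson_iff C H N hN

end Pool.Agent.Results.MP_08891c_ag.MiddleDimensions
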