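import Pool.Agent.Q69.BB.One

/-!
# Bloch-Beilinson filtrations exist if and only if they exist for one variety at a time

`𝒱` is a class of smooth projective geometrically irreducible varieties over the field `k` closed
under products (for example all the smooth complex projective varieties), `C` the Chow groups with
rational coefficients (in the form of their formal properties, `IsChowProj`), `H` a Weil cohomology
theory (`IsWeilProj`) and `N X j` the kernels of the Abel-Jacobi maps on the homologically trivial
classes in `CH^j(X)` (`IsAbelJacobiKernel`).

The conditions 1-4 on a Bloch-Beilinson filtration involve all the varieties simultaneously. The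
theorem says that it suffices to treat one variety `P` at a time, and only its own
self-correspondences: a Bloch-Beilinson filtration exists if and only if, for every single `P` in a
class `D` such that every variety is a motivic direct factor of a member of `D`, there is a
filtration of the Chow groups of `P` alone which satisfies the conditions 1-4 for `X = Y = P`. The
filtrations for different `P` are not required to be related. In particular, if there is no
Bloch-Beilinson filtration, this is already visible on the Chow groups of a single variety. Moreover
this is equivalent to the vanishing of explicit classes, those obtained from the kernel of the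
Abel-Jacobi map of `P` by `i - 1` self-correspondences of `P` which kill successively the groups
`H^(2j-2)`, `H^(2j-3)`, … and which lie in `CH^i(P)`.
-/

open CategoryTheory AlgebraicGeometry

set_option autoImplicit false

universe u v w

namespace Pool.Agent.Results.MP_08891c_ag.OneVarietyAtATime

open Pool.Agent.H914 Pool.Agent.W492.BB Pool.Agent.TH133 Pool.Agent.Y148.BB Pool.Agent.Q69.BB

/-- A Bloch-Beilinson filtration on the Chow groups of all varieties exists if and only if one
exists for every single variety `P` in the class `D` and its self-correspondences, if and only if
the chains of self-correspondences of each such `P` vanish; in this case there is a smallest one. -/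
theorem result {k : Type u} [Field k] {𝒱 : VarClass k} (C : TheoryData.{u, v, 0} 𝒱 ℚ)
    [IsChowProj C] {K : Type w} [Field K] (H : WeilTheoryData.{u, v, w} C K) [IsWeilProj H]
    (N : ∀ X : 𝒱.Obj, ℕ → Submodule ℚ (C.A X)) (hN : IsAbelJacobiKernel H N)
    (D : 𝒱.Obj → Prop) (hD : ∀ X, SummandOf C D X) :
    [∃ F, IsBlochBeilinsonOn H N (fun _ => True) F,
      ∃ F, IsBlochBeilinsonOn H N (fun _ => True) F ∧
        ∀ F', IsBlochBeilinsonOn H N (fun _ => True) F' → ∀ X j ν, F X j ν ≤ F' X j ν,
      ∀ P, D P → ∃ F, IsBlochBeilinsonOn H N (fun Y => Y = P) F,
      ∀ P, D P → ∀ (i : ℕ) (z : C.A P), SelfChain H N P (i + 1) i z → z = 0].TFAE := by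
  have h34 : (∀ P, D P → ∃ F, IsBlochBeilinsonOn H N (fun Y => Y = P) F) ↔
      ∀ P, D P → ∀ (i : ℕ) (z : C.A P), SelfChain H N P (i + 1) i z → z = 0 :=
    forall₂_congr fun P _ => single_iff hN P
  tfae_have 1 → 3 := by
    rintro ⟨F, hF⟩ P _
    exact ⟨F, fun X _ => hF.anti X trivial, fun X _ => hF.zero X trivial,
      fun X _ => hF.one X trivial, fun X _ => hF.two X trivial, fun X _ => hF.top X trivial,
      fun X Y _ _ => hF.stable X Y trivial trivial, fun X Y _ _ => hF.shift X Y trivial trivial⟩
  tfae_have 3 → 2 := by
    intro h
    exact ⟨_, global_of_single hN hD h, fun F' hF' X j ν => minFil_le hF' ν X j⟩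
  tfae_have 2 → 1 := by
    rintro ⟨F, hF, _⟩
    exact ⟨F, hF⟩
  tfae_have 3 ↔ 4 := h34
  tfae_finish

end Pool.Agent.Results.MP_08891c_ag.OneVarietyAtATime
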